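import Mathlib

set_option autoImplicit false

/-! # Kneser's addition theorem in finite abelian groups -/

namespace Pool.Agent.Kneser
open Finset
open scoped Pointwise

variable {G : Type*} [AddCommGroup G] [Fintype G] [DecidableEq G]

set_option linter.unusedSectionVars false

/-- The stabiliser of a set, as a finset. -/
def stab (C : Finset G) : Finset G := univ.filter (fun g => ∀ x, g + x ∈ C ↔ x ∈ C)

theorem mem_stab {C : Finset G} {g : G} : g ∈ stab C ↔ ∀ x, g + x ∈ C ↔ x ∈ C := by
  simp [stab]

theorem zero_mem_stab (C : Finset G) : (0 : G) ∈ stab C := by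
  rw [mem_stab]; simp

theorem sub_mem_stab {C : Finset G} {g h : G} (hg : g ∈ stab C) (hh : h ∈ stab C) :
    g - h ∈ stab C := by
  rw [mem_stab] at *
  intro x
  rw [sub_eq_add_neg, add_assoc, hg, ← hh, add_neg_cancel_left]

theorem neg_mem_stab {C : Finset G} {g : G} (hg : g ∈ stab C) : -g ∈ stab C := by
  have := sub_mem_stab (zero_mem_stab C) hg
  simpa using this

theorem add_mem_stab {C : Finset G} {g h : G} (hg : g ∈ stab C) (hh : h ∈ stab C) :
    g + h ∈ stab C := by
  have := sub_mem_stab hg (neg_mem_stab hh)
  simpa using this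

/-- A finset which is a subgroup. -/
structure IsSub (H : Finset G) : Prop where
  zero : (0 : G) ∈ H
  sub : ∀ a ∈ H, ∀ b ∈ H, a - b ∈ H

theorem IsSub.neg {H : Finset G} (hH : IsSub H) {a : G} (ha : a ∈ H) : -a ∈ H := by
  simpa using hH.sub 0 hH.zero a ha

theorem IsSub.add {H : Finset G} (hH : IsSub H) {a b : G} (ha : a ∈ H) (hb : b ∈ H) :
    a + b ∈ H := by
  simpa using hH.sub a ha _ (hH.neg hb)

theorem isSub_stab (C : Finset G) : IsSub (stab C) :=
  ⟨zero_mem_stab C, fun _ ha _ hb => sub_mem_stab ha hb⟩

/-- The arithmetic behind the union lemma. -/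
theorem arith {a b a' b' q X Y : ℕ} (hq : 0 < q) (ha : q ≤ a) (hb : q ≤ b) (ha' : q ≤ a')
    (hb' : q ≤ b') (h1 : a * b ≤ q * X) (h2 : a' * b' ≤ q * Y) (h3 : X + q < a + a')
    (h4 : Y + q < b + b') : False := by
  obtain ⟨a, rfl⟩ := Nat.exists_eq_add_of_le ha
  obtain ⟨b, rfl⟩ := Nat.exists_eq_add_of_le hb
  obtain ⟨a', rfl⟩ := Nat.exists_eq_add_of_le ha'
  obtain ⟨b', rfl⟩ := Nat.exists_eq_add_of_le hb'
  have h3' : X + 1 ≤ q + a + a' := by omega
  have h4' : Y + 1 ≤ q + b + b' := by omega
  have h5 : q * (X + 1) ≤ q * (q + a + a') := Nat.mul_le_mul_left q h3'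
  have h6 : q * (Y + 1) ≤ q * (q + b + b') := Nat.mul_le_mul_left q h4'
  have h7 : q * b < q * a' := by nlinarith [Nat.zero_le (a * b)]
  have h8 : q * a' < q * b := by nlinarith [Nat.zero_le (a' * b')]
  omega

/-- Counting in a coset of `H₁ + H₂`. -/
theorem grid {H₁ H₂ C₁ C₂ : Finset G} (hH₁ : IsSub H₁) (hH₂ : IsSub H₂)
    (hC₁ : ∀ h ∈ H₁, ∀ x, h + x ∈ C₁ ↔ x ∈ C₁) (hC₂ : ∀ h ∈ H₂, ∀ x, h + x ∈ C₂ ↔ x ∈ C₂)
    {x : G} (hx₂ : x ∈ C₂) (hx₁ : x ∉ C₁) :
    H₁.card ≤ (C₂ \ C₁).card + (H₁ ∩ H₂).card ∨ H₂.card ≤ (C₁ \ C₂).card + (H₁ ∩ H₂).card ∨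
      H₂.card ≤ (C₂ \ C₁).card := by
  set q := (H₁ ∩ H₂).card with hq
  set S := H₁.filter (fun s => s + x ∈ C₂) with hS
  set S' := H₁.filter (fun s => ¬ s + x ∈ C₂) with hS'
  set T := H₂.filter (fun t => ¬ t + x ∈ C₁) with hT
  set T' := H₂.filter (fun t => t + x ∈ C₁) with hT'
  have hSS : S.card + S'.card = H₁.card := Finset.card_filter_add_card_filter_not _
  have hTT : T'.card + T.card = H₂.card := Finset.card_filter_add_card_filter_not _
  have hqpos : 0 < q := Finset.card_pos.2 ⟨0, Finset.mem_inter.2 ⟨hH₁.zero, hH₂.zero⟩⟩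
  -- fibre bound
  have fib : ∀ (U V : Finset G), U ⊆ H₁ → V ⊆ H₂ → ∀ y : G,
      ((U ×ˢ V).filter (fun st => st.1 + st.2 + x = y)).card ≤ q := by
    intro U V hU hV y
    by_cases hne : ((U ×ˢ V).filter (fun st => st.1 + st.2 + x = y)).Nonempty
    · obtain ⟨⟨s₀, t₀⟩, h0⟩ := hne
      rw [Finset.mem_filter, Finset.mem_product] at h0
      apply Finset.card_le_card_of_injOn (fun st => st.1 - s₀)
      · intro st hst
        rw [Finset.mem_coe, Finset.mem_filter, Finset.mem_product] at hst
        rw [Finset.mem_coe, Finset.mem_inter]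
        refine ⟨hH₁.sub _ (hU hst.1.1) _ (hU h0.1.1), ?_⟩
        have : st.1 - s₀ = t₀ - st.2 := by
          have := hst.2.trans h0.2.symm
          have h' : st.1 + st.2 = s₀ + t₀ := by simpa using this
          rw [sub_eq_sub_iff_add_eq_add, h', add_comm]
        show st.1 - s₀ ∈ H₂
        rw [this]
        exact hH₂.sub _ (hV h0.1.2) _ (hV hst.1.2)
      · intro st hst st' hst' h
        rw [Finset.mem_coe, Finset.mem_filter] at hst hst'
        have h1 : st.1 = st'.1 := by simpa using h
        have h2 := hst.2.trans hst'.2.symm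
        rw [h1] at h2
        have h3 : st.2 = st'.2 := by simpa using h2
        exact Prod.ext h1 h3
    · rw [Finset.not_nonempty_iff_eq_empty] at hne
      rw [hne]; simp
  have e1 : S.card * T.card ≤ q * (C₂ \ C₁).card := by
    rw [← Finset.card_product]
    apply Finset.card_le_mul_card_image_of_maps_to (f := fun st : G × G => st.1 + st.2 + x)
    · intro st hst
      rw [Finset.mem_product, hS, hT, Finset.mem_filter, Finset.mem_filter] at hst
      rw [Finset.mem_sdiff]
      constructor
      · rw [add_comm st.1, add_assoc, hC₂ _ hst.2.1]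
        exact hst.1.2
      · rw [add_assoc, hC₁ _ hst.1.1]
        exact hst.2.2
    · intro y _
      exact fib S T (Finset.filter_subset _ _) (Finset.filter_subset _ _) y
  have e2 : S'.card * T'.card ≤ q * (C₁ \ C₂).card := by
    rw [← Finset.card_product]
    apply Finset.card_le_mul_card_image_of_maps_to (f := fun st : G × G => st.1 + st.2 + x)
    · intro st hst
      rw [Finset.mem_product, hS', hT', Finset.mem_filter, Finset.mem_filter] at hst
      rw [Finset.mem_sdiff]
      constructor
      · rw [add_assoc, hC₁ _ hst.1.1]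
        exact hst.2.2
      · rw [add_comm st.1, add_assoc, hC₂ _ hst.2.1]
        exact hst.1.2
    · intro y _
      exact fib S' T' (Finset.filter_subset _ _) (Finset.filter_subset _ _) y
  have e3 : q ≤ S.card := by
    apply Finset.card_le_card
    intro s hs
    rw [Finset.mem_inter] at hs
    rw [hS, Finset.mem_filter]
    exact ⟨hs.1, (hC₂ s hs.2 x).2 hx₂⟩
  have e4 : q ≤ T.card := by
    apply Finset.card_le_card
    intro s hs
    rw [Finset.mem_inter] at hs
    rw [hT, Finset.mem_filter]
    exact ⟨hs.2, fun h => hx₁ ((hC₁ s hs.1 x).1 h)⟩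
  have e5 : S'.card = 0 ∨ q ≤ S'.card := by
    rcases Finset.eq_empty_or_nonempty S' with h | ⟨s₀, h0⟩
    · left; rw [h]; simp
    · right
      rw [hS', Finset.mem_filter] at h0
      apply Finset.card_le_card_of_injOn (fun s => s + s₀)
      · intro s hs
        rw [Finset.mem_coe, Finset.mem_inter] at hs
        rw [Finset.mem_coe, hS', Finset.mem_filter]
        refine ⟨hH₁.add hs.1 h0.1, fun h => h0.2 ?_⟩
        rw [add_assoc, hC₂ _ hs.2] at h
        exact h
      · intro s _ s' _ h
        simpa using h
  have e6 : T'.card = 0 ∨ q ≤ T'.card := by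
    rcases Finset.eq_empty_or_nonempty T' with h | ⟨s₀, h0⟩
    · left; rw [h]; simp
    · right
      rw [hT', Finset.mem_filter] at h0
      apply Finset.card_le_card_of_injOn (fun s => s + s₀)
      · intro s hs
        rw [Finset.mem_coe, Finset.mem_inter] at hs
        rw [Finset.mem_coe, hT', Finset.mem_filter]
        refine ⟨hH₂.add hs.2 h0.1, ?_⟩
        rw [add_assoc, hC₁ _ hs.1]
        exact h0.2
      · intro s _ s' _ h
        simpa using h
  rcases e6 with h6 | h6
  · right; right
    have : H₂.card = T.card := by omega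
    rw [this]
    have h7 : q * T.card ≤ q * (C₂ \ C₁).card := le_trans (Nat.mul_le_mul_right _ e3) e1
    exact Nat.le_of_mul_le_mul_left h7 hqpos
  · rcases e5 with h5 | h5
    · left
      have : H₁.card = S.card := by omega
      rw [this]
      have h7 : q * S.card ≤ q * (C₂ \ C₁).card :=
        le_trans (by rw [mul_comm]; exact Nat.mul_le_mul_left _ e4) e1
      exact le_trans (Nat.le_of_mul_le_mul_left h7 hqpos) (Nat.le_add_right _ _)
    · by_contra hcon
      rw [not_or, not_or, not_le, not_le, not_le] at hcon
      exact arith hqpos e3 e4 h5 h6 e1 e2 (by omega) (by omega)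

/-- Kneser's union lemma. -/
theorem union_lemma {C₁ C₂ : Finset G} {M : ℕ} (h₁ : M ≤ C₁.card + (stab C₁).card)
    (h₂ : M ≤ C₂.card + (stab C₂).card) : M ≤ (C₁ ∪ C₂).card + (stab (C₁ ∪ C₂)).card := by
  by_cases h12 : C₁ ⊆ C₂
  · rwa [Finset.union_eq_right.2 h12]
  by_cases h21 : C₂ ⊆ C₁
  · rwa [Finset.union_eq_left.2 h21]
  obtain ⟨y, hy1, hy2⟩ := Finset.not_subset.1 h12
  obtain ⟨x, hx2, hx1⟩ := Finset.not_subset.1 h21
  have hq : (stab C₁ ∩ stab C₂).card ≤ (stab (C₁ ∪ C₂)).card := by
    apply Finset.card_le_card
    intro g hg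
    rw [Finset.mem_inter, mem_stab, mem_stab] at hg
    rw [mem_stab]
    intro z
    rw [Finset.mem_union, Finset.mem_union, hg.1, hg.2]
  have hc1 : (C₁ ∪ C₂).card = C₁.card + (C₂ \ C₁).card := by
    rw [← Finset.union_sdiff_self_eq_union, Finset.card_union_of_disjoint Finset.disjoint_sdiff]
  have hc2 : (C₁ ∪ C₂).card = C₂.card + (C₁ \ C₂).card := by
    rw [Finset.union_comm, ← Finset.union_sdiff_self_eq_union,
      Finset.card_union_of_disjoint Finset.disjoint_sdiff]
  have g1 := grid (isSub_stab C₁) (isSub_stab C₂) (fun h hh => mem_stab.1 hh)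
    (fun h hh => mem_stab.1 hh) hx2 hx1
  have g2 := grid (isSub_stab C₂) (isSub_stab C₁) (fun h hh => mem_stab.1 hh)
    (fun h hh => mem_stab.1 hh) hy1 hy2
  rw [Finset.inter_comm] at g2
  omega

/-- Every element of `A + B` lies in a large subset with large stabiliser. -/
theorem local_lemma (k : ℕ) : ∀ (A B : Finset G) (a b : G), B.card = k → a ∈ A → b ∈ B →
    ∃ C : Finset G, C ⊆ A + B ∧ a + b ∈ C ∧ A.card + B.card ≤ C.card + (stab C).card := by
  induction k using Nat.strong_induction_on with
  | _ k ih =>
    intro A B a b hk ha hb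
    by_cases hall : ∀ e ∈ A, ∀ β ∈ B, β + (e - b) ∈ A
    · refine ⟨A.image (fun x => x + b), ?_, Finset.mem_image_of_mem _ ha, ?_⟩
      · intro z hz
        rw [Finset.mem_image] at hz
        obtain ⟨x, hx, rfl⟩ := hz
        exact Finset.add_mem_add hx hb
      · rw [Finset.card_image_of_injective _ (add_left_injective b)]
        apply Nat.add_le_add_left
        apply Finset.card_le_card_of_injOn (fun β => β - b)
        · intro β hβ
          rw [Finset.mem_coe] at hβ
          rw [Finset.mem_coe, mem_stab]
          -- `x ↦ (β - b) + x` maps `A` into `A`, hence onto `A`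
          have hmaps : ∀ x ∈ A, (β - b) + x ∈ A := by
            intro x hx
            have := hall x hx β hβ
            have e : β - b + x = β + (x - b) := by abel
            rw [e]; exact this
          have himg : A.image (fun x => (β - b) + x) = A := by
            apply Finset.eq_of_subset_of_card_le
            · intro z hz
              rw [Finset.mem_image] at hz
              obtain ⟨x, hx, rfl⟩ := hz
              exact hmaps x hx
            · rw [Finset.card_image_of_injective _ (add_right_injective (β - b))]
          have hiff : ∀ x, (β - b) + x ∈ A ↔ x ∈ A := by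
            intro x
            constructor
            · intro h
              rw [← himg, Finset.mem_image] at h
              obtain ⟨y, hy, hxy⟩ := h
              have := add_left_cancel hxy
              rwa [← this]
            · exact hmaps x
          intro x
          constructor
          · intro h
            rw [Finset.mem_image] at h ⊢
            obtain ⟨y, hy, hxy⟩ := h
            refine ⟨x - b, ?_, by abel⟩
            rw [← hiff]
            have e : β - b + (x - b) = y := by
              have : y = β - b + x - b := by rw [← hxy]; abel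
              rw [this]; abel
            rw [e]; exact hy
          · intro h
            rw [Finset.mem_image] at h ⊢
            obtain ⟨y, hy, hxy⟩ := h
            refine ⟨β - b + y, hmaps y hy, ?_⟩
            have hxy' : x = y + b := hxy.symm
            show β - b + y + b = β - b + x
            rw [hxy']; abel
        · intro x _ y _ h
          simpa using h
    · push Not at hall
      obtain ⟨e, he, β, hβ, hnot⟩ := hall
      set τ := e - b with hτ
      set A' := A ∪ B.image (fun x => x + τ) with hA'
      set B' := B.filter (fun x => x + τ ∈ A) with hB'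
      have hcard : B'.card < k := by
        rw [← hk]
        apply Finset.card_lt_card
        rw [Finset.ssubset_iff_of_subset (Finset.filter_subset _ _)]
        exact ⟨β, hβ, fun h => hnot (Finset.mem_filter.1 h).2⟩
      have hbB' : b ∈ B' := by
        rw [hB', Finset.mem_filter]
        refine ⟨hb, ?_⟩
        rw [hτ]; simpa using he
      obtain ⟨C, hC1, hC2, hC3⟩ := ih B'.card hcard A' B' a b rfl (Finset.mem_union_left _ ha) hbB'
      refine ⟨C, ?_, hC2, ?_⟩
      · refine hC1.trans ?_
        intro z hz
        rw [Finset.mem_add] at hz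
        obtain ⟨x, hx, y, hy, rfl⟩ := hz
        rw [hB', Finset.mem_filter] at hy
        rw [hA', Finset.mem_union] at hx
        rcases hx with hx | hx
        · exact Finset.add_mem_add hx hy.1
        · rw [Finset.mem_image] at hx
          obtain ⟨w, hw, rfl⟩ := hx
          have e : w + τ + y = (y + τ) + w := by abel
          rw [e]
          exact Finset.add_mem_add hy.2 hw
      · refine le_trans ?_ hC3
        have h1 : (B.image (fun x => x + τ)).card = B.card :=
          Finset.card_image_of_injective _ (add_left_injective τ)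
        have h2 : (A ∩ B.image (fun x => x + τ)).card = B'.card := by
          have : A ∩ B.image (fun x => x + τ) = B'.image (fun x => x + τ) := by
            ext z
            rw [Finset.mem_inter, Finset.mem_image, Finset.mem_image]
            constructor
            · rintro ⟨hz, w, hw, rfl⟩
              exact ⟨w, Finset.mem_filter.2 ⟨hw, hz⟩, rfl⟩
            · rintro ⟨w, hw, rfl⟩
              rw [hB', Finset.mem_filter] at hw
              exact ⟨hw.2, w, hw.1, rfl⟩
          rw [this, Finset.card_image_of_injective _ (add_left_injective τ)]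
        have h3 := Finset.card_union_add_card_inter A (B.image (fun x => x + τ))
        rw [h1, h2] at h3
        rw [hA']
        omega

/-- Weak form of Kneser's theorem. -/
theorem kneser_weak {A B : Finset G} (hA : A.Nonempty) (hB : B.Nonempty) :
    A.card + B.card ≤ (A + B).card + (stab (A + B)).card := by
  have hloc : ∀ c ∈ A + B, ∃ C : Finset G, C ⊆ A + B ∧ c ∈ C ∧
      A.card + B.card ≤ C.card + (stab C).card := by
    intro c hc
    rw [Finset.mem_add] at hc
    obtain ⟨a, ha, b, hb, rfl⟩ := hc
    exact local_lemma B.card A B a b rfl ha hb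
  choose! F hF1 hF2 hF3 using hloc
  have key : ∀ T : Finset G, T ⊆ A + B → T.Nonempty →
      A.card + B.card ≤ (T.biUnion F).card + (stab (T.biUnion F)).card := by
    intro T
    induction T using Finset.induction_on with
    | empty => intro _ h; exact absurd h (by simp)
    | insert c T hc ih =>
      intro hsub _
      rw [Finset.biUnion_insert]
      have hcm : c ∈ A + B := hsub (Finset.mem_insert_self _ _)
      by_cases hT : T.Nonempty
      · exact union_lemma (hF3 c hcm) (ih (fun x hx => hsub (Finset.mem_insert_of_mem hx)) hT)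
      · rw [Finset.not_nonempty_iff_eq_empty] at hT
        subst hT
        simpa using hF3 c hcm
  have hU : (A + B).biUnion F = A + B := by
    ext c
    rw [Finset.mem_biUnion]
    constructor
    · rintro ⟨d, hd, hc⟩
      exact hF1 d hd hc
    · intro hc
      exact ⟨c, hc, hF2 c hc⟩
  have := key (A + B) Finset.Subset.rfl (hA.add hB)
  rwa [hU] at this

/-- **Kneser's theorem**: `|A + H| + |B + H| ≤ |A + B| + |H|`, `H` the stabiliser of `A + B`. -/
theorem kneser {A B : Finset G} (hA : A.Nonempty) (hB : B.Nonempty) :
    (A + stab (A + B)).card + (B + stab (A + B)).card ≤ (A + B).card + (stab (A + B)).card := by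
  set H := stab (A + B) with hH
  have h0 : (0 : G) ∈ H := zero_mem_stab _
  have hsum : (A + H) + (B + H) = A + B := by
    ext z
    constructor
    · intro hz
      rw [Finset.mem_add] at hz
      obtain ⟨x, hx, y, hy, rfl⟩ := hz
      rw [Finset.mem_add] at hx hy
      obtain ⟨a, ha, h, hh, rfl⟩ := hx
      obtain ⟨b, hb, h', hh', rfl⟩ := hy
      have e : a + h + (b + h') = (h + h') + (a + b) := by abel
      rw [e, mem_stab.1 (add_mem_stab hh hh')]
      exact Finset.add_mem_add ha hb
    · intro hz
      rw [Finset.mem_add] at hz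
      obtain ⟨x, hx, y, hy, rfl⟩ := hz
      have hx' : x ∈ A + H := by
        rw [Finset.mem_add]; exact ⟨x, hx, 0, h0, by simp⟩
      have hy' : y ∈ B + H := by
        rw [Finset.mem_add]; exact ⟨y, hy, 0, h0, by simp⟩
      exact Finset.add_mem_add hx' hy'
  have := kneser_weak (A := A + H) (B := B + H) (hA.add ⟨0, h0⟩) (hB.add ⟨0, h0⟩)
  rw [hsum] at this
  exact this

end Pool.Agent.Kneser
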